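import Pool.Agent.MWE.Stmts

/-!
# Squad MWE, row BAS: basic facts about the words equivalent to `Ex R c X`
-/

set_option autoImplicit false

namespace Pool.Agent.MWE.H10

open Pool.Agent.Helper14_MV Pool.Agent.Helper2_MV Pool.Agent.MVD Pool.Agent.MWE

/-- the blocks of `Ex` -/
def B0 (c X : List ℕ) : ℕ → List ℕ := fun r =>
  if r = 0 then X else if r = 1 then 0 :: (c ++ [3]) else [3 * (r - 2) + 1]

theorem ex_eq (R c X : List ℕ) : Ex R c X = Bw R (B0 c X) := rfl

theorem count_bw (R : List ℕ) (B : ℕ → List ℕ) (a : ℕ) :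
    (Bw R B).count a = (R.map (fun r => (B r ++ [3 * r + 2]).count a)).sum := by
  unfold Bw
  rw [List.count_flatMap]
  rfl

theorem two_blocks {R : List ℕ} (hR : R.Nodup) (B : ℕ → List ℕ) {r s : ℕ} (hr : r ∈ R)
    (hs : s ∈ R) (hrs : r ≠ s) (a : ℕ) : (B r).count a + (B s).count a ≤ (Bw R B).count a := by
  rw [count_bw, ← List.sum_toFinset _ hR]
  have h1 := Finset.add_le_sum (s := R.toFinset)
    (f := fun r => (B r ++ [3 * r + 2]).count a) (fun _ _ => Nat.zero_le _)
    (List.mem_toFinset.2 hr) (List.mem_toFinset.2 hs) hrs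
  refine le_trans ?_ h1
  simp only [List.count_append]
  omega

theorem one_block {R : List ℕ} (hR : R.Nodup) (B : ℕ → List ℕ) {r : ℕ} (hr : r ∈ R) (a : ℕ) :
    (B r).count a ≤ (Bw R B).count a := by
  rw [count_bw, ← List.sum_toFinset _ hR]
  have h1 := Finset.single_le_sum (s := R.toFinset)
    (f := fun r => (B r ++ [3 * r + 2]).count a) (fun _ _ => Nat.zero_le _)
    (List.mem_toFinset.2 hr)
  refine le_trans ?_ h1
  simp only [List.count_append]
  omega

theorem mem_bw {R : List ℕ} {B : ℕ → List ℕ} {a : ℕ} :
    a ∈ Bw R B ↔ ∃ r ∈ R, a ∈ B r ∨ a = 3 * r + 2 := by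
  unfold Bw
  rw [List.mem_flatMap]
  constructor
  · rintro ⟨r, hr, h⟩
    refine ⟨r, hr, ?_⟩
    rw [List.mem_append, List.mem_singleton] at h
    exact h
  · rintro ⟨r, hr, h⟩
    refine ⟨r, hr, ?_⟩
    rw [List.mem_append, List.mem_singleton]
    exact h

theorem can_cnt0 {m : ℕ} {c : List ℕ} (hc : Can m c) : c.count 0 = 0 := by
  rw [List.count_eq_zero]
  intro h
  rcases hc.lo 0 h with ⟨d, _, hd⟩ | ⟨_, h6, _⟩ <;> omega

theorem can_cnt3 {m : ℕ} {c : List ℕ} (hc : Can m c) : c.count 3 = 0 := by
  rw [List.count_eq_zero]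
  intro h
  rcases hc.lo 3 h with ⟨d, _, hd⟩ | ⟨_, h6, _⟩ <;> omega

theorem b0_sfr {m : ℕ} {c X : List ℕ} (hc : Can m c) (hX : XX X) (r : ℕ) : SFr (B0 c X r) := by
  intro a ha
  unfold B0 at ha
  by_cases h0 : r = 0
  · rw [if_pos h0] at ha
    rcases hX with hX | hX
    · rw [hX] at ha
      simp only [List.mem_cons, List.not_mem_nil, or_false] at ha
      omega
    · rw [hX] at ha
      simp only [List.mem_cons, List.not_mem_nil, or_false] at ha
      omega
  · rw [if_neg h0] at ha
    by_cases h1 : r = 1
    · rw [if_pos h1, List.mem_cons, List.mem_append, List.mem_singleton] at ha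
      rcases ha with ha | ha | ha
      · omega
      · rcases hc.lo a ha with ⟨d, _, hd⟩ | ⟨h3, _, _⟩ <;> omega
      · omega
    · rw [if_neg h1, List.mem_singleton] at ha
      omega

theorem b0_x {m : ℕ} {c X : List ℕ} (hc : Can m c) (hX : XX X) (q : ℕ) :
    (B0 c X q).count 0 = if q = 0 ∨ q = 1 then 1 else 0 := by
  unfold B0
  by_cases h0 : q = 0
  · rw [if_pos h0, if_pos (Or.inl h0)]
    rcases hX with hX | hX <;> rw [hX] <;> decide
  · rw [if_neg h0]
    by_cases h1 : q = 1
    · rw [if_pos h1, if_pos (Or.inr h1), List.count_cons_self, List.count_append, can_cnt0 hc]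
      rfl
    · rw [if_neg h1, if_neg (by omega), List.count_eq_zero, List.mem_singleton]
      omega

theorem b0_y {m : ℕ} {c X : List ℕ} (hc : Can m c) (hX : XX X) (q : ℕ) :
    (B0 c X q).count 3 = if q = 0 ∨ q = 1 then 1 else 0 := by
  unfold B0
  by_cases h0 : q = 0
  · rw [if_pos h0, if_pos (Or.inl h0)]
    rcases hX with hX | hX <;> rw [hX] <;> decide
  · rw [if_neg h0]
    by_cases h1 : q = 1
    · rw [if_pos h1, if_pos (Or.inr h1), List.count_cons_of_ne (by omega), List.count_append,
        can_cnt3 hc]
      rfl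
    · rw [if_neg h1, if_neg (by omega), List.count_eq_zero, List.mem_singleton]
      omega

theorem b0_z {m : ℕ} {c X : List ℕ} (hc : Can m c) (hX : XX X) {d : ℕ} (hd : d < m) (q : ℕ) :
    (B0 c X q).count (3 * d + 1) = if q = 1 ∨ q = d + 2 then 1 else 0 := by
  unfold B0
  by_cases h0 : q = 0
  · rw [if_pos h0, if_neg (by omega), List.count_eq_zero]
    intro h
    rcases hX with hX | hX
    · rw [hX] at h
      simp only [List.mem_cons, List.not_mem_nil, or_false] at h
      omega
    · rw [hX] at h
      simp only [List.mem_cons, List.not_mem_nil, or_false] at h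
      omega
  · rw [if_neg h0]
    by_cases h1 : q = 1
    · rw [if_pos h1, if_pos (Or.inl h1), List.count_cons_of_ne (by omega), List.count_append,
        hc.li d hd, List.count_eq_zero.2 (by rw [List.mem_singleton]; omega)]
    · rw [if_neg h1]
      by_cases h2 : q = d + 2
      · rw [if_pos (Or.inr h2)]
        subst h2
        rw [Nat.add_sub_cancel, List.count_singleton_self]
      · rw [if_neg (by omega), List.count_eq_zero, List.mem_singleton]
        omega

theorem bas : BasStmt := by
  intro β m R c X h3 hc hR hX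
  have hnd : R.Nodup := hR.nodup_iff.2 List.nodup_range
  have hmem : ∀ r, r ∈ R ↔ r < m + 2 := fun r => by rw [hR.mem_iff, List.mem_range]
  have hsf : ∀ r ∈ R, SFr (B0 c X r) := fun r _ => b0_sfr hc hX r
  refine ⟨?_, ?_⟩
  · intro w hw
    rw [ex_eq] at hw
    obtain ⟨B', e, h4, h5, h6⟩ := Pool.Agent.MWD.H11.decF β h3 R (B0 c X) w hnd hsf hw
    exact ⟨B', e, h6, h4, h5⟩
  · intro B e hB he hw
    rw [ex_eq] at hw
    have hk := fun (u r s : ℕ) hu hr hs hrs hcnt =>
      Pool.Agent.MWD.H11.kp3 β h3 R (B0 c X) B e hnd hsf (fun r _ => hB r) he hw u r s hu hr hs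
        hrs hcnt
    have h0R : (0 : ℕ) ∈ R := (hmem 0).2 (by omega)
    have h1R : (1 : ℕ) ∈ R := (hmem 1).2 (by omega)
    obtain ⟨kx, kxe⟩ := hk 0 0 1 (by omega) h0R h1R (by omega) (fun q _ => b0_x hc hX q)
    obtain ⟨ky, kye⟩ := hk 3 0 1 (by omega) h0R h1R (by omega) (fun q _ => b0_y hc hX q)
    have kz : ∀ d < m, (∀ q ∈ R, (B q).count (3 * d + 1) = if q = 1 ∨ q = d + 2 then 1 else 0) ∧
        e.count (3 * d + 1) = 0 := fun d hd =>
      hk (3 * d + 1) 1 (d + 2) (by omega) h1R ((hmem _).2 (by omega)) (by omega)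
        (fun q _ => b0_z hc hX hd q)
    -- the letters of the left side
    have hct0 : ∀ a ∈ Bw R (B0 c X), a % 3 ≠ 2 → a = 0 ∨ a = 3 ∨ a ∈ c := by
      intro a ha h2
      obtain ⟨r, hr, h⟩ := mem_bw.1 ha
      rcases h with h | h
      · unfold B0 at h
        by_cases h0 : r = 0
        · rw [if_pos h0] at h
          rcases hX with hX | hX
          · rw [hX] at h
            simp only [List.mem_cons, List.not_mem_nil, or_false] at h
            omega
          · rw [hX] at h
            simp only [List.mem_cons, List.not_mem_nil, or_false] at h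
            omega
        · rw [if_neg h0] at h
          by_cases h1 : r = 1
          · rw [if_pos h1, List.mem_cons, List.mem_append, List.mem_singleton] at h
            rcases h with h | h | h
            · exact Or.inl h
            · exact Or.inr (Or.inr h)
            · exact Or.inr (Or.inl h)
          · rw [if_neg h1, List.mem_singleton] at h
            have hrm := (hmem r).1 hr
            have h5 : c.count a = 1 := by rw [h]; exact hc.li (r - 2) (by omega)
            exact Or.inr (Or.inr (List.count_pos_iff.1 (by omega)))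
      · omega
    have hct : ∀ a ∈ Bw R B ++ e, a % 3 ≠ 2 → a = 0 ∨ a = 3 ∨ a ∈ c := by
      intro a ha h2
      by_contra hne
      exact RR.content h3 hw (fun h => hne (hct0 a h h2)) ha
    refine ⟨hB, he, ?_, ?_, ?_, ?_, ?_, ?_, ?_, ?_, ?_, ?_, hct, ?_⟩
    · simpa using kx 0 h0R
    · simpa using kx 1 h1R
    · intro r hr h0 h1
      rw [← List.count_eq_zero, kx r hr, if_neg (by omega)]
    · exact List.count_eq_zero.1 kxe
    · simpa using ky 0 h0R
    · simpa using ky 1 h1R
    · intro r hr h0 h1
      rw [← List.count_eq_zero, ky r hr, if_neg (by omega)]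
    · exact List.count_eq_zero.1 kye
    · exact fun d hd r hr => (kz d hd).1 r hr
    · exact fun d hd => List.count_eq_zero.1 (kz d hd).2
    · -- multiple letters
      intro a ha h2
      have hge : 2 ≤ (Bw R (B0 c X)).count a := by
        rcases hct a ha h2 with h | h | h
        · have h4 := two_blocks hnd (B0 c X) h0R h1R (by omega) a
          rw [h] at h4 ⊢
          rw [b0_x hc hX, b0_x hc hX] at h4
          simpa using h4
        · have h4 := two_blocks hnd (B0 c X) h0R h1R (by omega) a
          rw [h] at h4 ⊢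
          rw [b0_y hc hX, b0_y hc hX] at h4
          simpa using h4
        · rcases hc.lo a h with ⟨d, hd, had⟩ | ⟨_, _, hcc⟩
          · have h4 := two_blocks hnd (B0 c X) h1R ((hmem (d + 2)).2 (by omega)) (by omega) a
            rw [had] at h4 ⊢
            rw [b0_z hc hX hd, b0_z hc hX hd] at h4
            simpa using h4
          · have h4 := one_block hnd (B0 c X) h1R a
            refine le_trans (le_trans hcc ?_) h4
            have h5 : B0 c X 1 = 0 :: (c ++ [3]) := rfl
            rw [h5, List.count_cons, List.count_append]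
            omega
      by_contra hlt
      have hpos : 0 < (Bw R B ++ e).count a := List.count_pos_iff.2 ha
      have h1 : (Bw R B ++ e).count a = 1 := by omega
      have h4 := hw.filter (fun i => i == a)
      have h5 : (Bw R B ++ e).filter (fun i => i == a) = [a] := by
        rw [List.filter_beq, h1]
        rfl
      have h6 : (Bw R (B0 c X)).filter (fun i => i == a) =
          List.replicate ((Bw R (B0 c X)).count a) a := by
        rw [List.filter_beq]
      rw [h5, h6] at h4
      have h7 := Pool.Agent.MVD.H10.lin β h3 [a] _ (List.nodup_singleton a) h4.symm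
      have h8 := congrArg List.length h7
      rw [List.length_replicate] at h8
      simp only [List.length_cons, List.length_nil] at h8
      omega

end Pool.Agent.MWE.H10
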